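import Pool.Agent.P.MP_92e33a_gt.Proof

/-!
A finitary normal functor of finite degree on compacta which is skeletal but not open.

The functor is `F X = {(x, y, z) ∈ X × X × X | x = y ∨ x = z}`, two copies of the square of `X`
glued along the diagonal. The definitions are in `Pool/Agent/P/MP_92e33a_gt/Defs.lean`.
-/

set_option autoImplicit false

universe u

open CategoryTheory Pool.Agent.P.MP_92e33a_gt

namespace Pool.Agent.Results.MP_92e33a_gt.SkeletalNotOpen

/-- There is a finitary normal functor of finite degree on compacta which is skeletal (it even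
preserves all skeletal surjections) but neither open nor finitely bicommutative. -/
theorem result : ∃ F : CompHaus.{u} ⥤ CompHaus.{u},
    IsNormal F ∧ IsFinitary F ∧ HasFiniteDegree F ∧ IsSkeletalFunctor F ∧
      (∀ (X Y : CompHaus.{u}) (f : X ⟶ Y), IsSkeletalMap f → Function.Surjective f →
        IsSkeletalMap (F.map f)) ∧
      ¬ IsOpenFunctor F ∧ ¬ IsFinitelyBicommutative F :=
  ⟨G, isNormal_G, isFinitary_G, hasFiniteDegree_G,
    fun _ _ f ho _ => isSkeletalMap_tmap f.hom.hom.continuous
      (isSkeletalMap_of_isOpenMap f.hom.hom.continuous ho),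
    fun _ _ f hs _ => isSkeletalMap_tmap f.hom.hom.continuous hs,
    not_isOpenFunctor_G, not_isFinitelyBicommutative_G⟩

end Pool.Agent.Results.MP_92e33a_gt.SkeletalNotOpen
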